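import Pool.Agent.Helper53.K5.CNTA

/-!
Row CNT of sheet K5 (MP_7a8f48_an): the sum over the primes of a block for one fixed prime `q`.
-/

open Finset Filter Topology

namespace Pool.Agent.Helper40.KZ.CNT

open Pool.Agent.Helper40.DZ (SK)
open Pool.Agent.Helper40.JZ (LM)
open scoped Classical

/-! ### the means -/

theorem avg_nonneg {N : ℕ → ℕ → ℝ} (hN : SK N) (m H : ℕ) :
    0 ≤ ∑ h ∈ range H, ∑ h' ∈ range H, N (m * h) (m * h') := by
  obtain ⟨⟨V, _, _, _, w, hw⟩, -⟩ := hN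
  have e : (((∑ h ∈ range H, ∑ h' ∈ range H, N (m * h) (m * h') : ℝ)) : ℂ) =
      inner ℂ (∑ h ∈ range H, w (m * h)) (∑ h ∈ range H, w (m * h)) := by
    rw [sum_inner]
    push_cast
    refine sum_congr rfl fun h _ => ?_
    rw [inner_sum]
    exact sum_congr rfl fun h' _ => (hw _ _).symm
  have h1 := inner_self_nonneg (𝕜 := ℂ) (x := ∑ h ∈ range H, w (m * h))
  rw [← e] at h1
  exact h1

theorem LM_nonneg (hL : Pool.Agent.Helper40.JZ.ST_LMF) {N : ℕ → ℕ → ℝ} (hN : SK N) {m : ℕ}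
    (hm : 1 ≤ m) : 0 ≤ LM N m :=
  ge_of_tendsto' ((hL N hN).1 m hm) fun H => div_nonneg (avg_nonneg hN m H) (by positivity)

theorem LM_le2 (hL : Pool.Agent.Helper40.JZ.ST_LMF) {N : ℕ → ℕ → ℝ} (hN : SK N) {m : ℕ}
    (hm : 2 ≤ m) : LM N m ≤ 2 * N 0 0 := by
  obtain ⟨-, -, h3, h4, -⟩ := hL N hN
  have h5 := h3 {m} (fun q hq => by rw [mem_singleton.1 hq]; exact hm) (fun q hq q' hq' hne =>
    absurd ((mem_singleton.1 hq).trans (mem_singleton.1 hq').symm) hne)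
  rw [sum_singleton] at h5
  have h6 := h4 1 le_rfl
  simp only [range_one, sum_singleton, Nat.cast_one, one_pow, div_one] at h6
  linarith

/-- the inequality between the kernels of a block passes to the means -/
theorem LM_block (hL : Pool.Agent.Helper40.JZ.ST_LMF) {B I0 : Finset ℕ}
    {N : ℕ → ℕ → ℕ → ℝ} {N1 : ℕ → ℕ → ℝ} {K c : ℝ} (hB : ∀ i ∈ B, SK (N i))
    (hI : ∀ i ∈ I0, SK (N i)) (h1 : SK N1)
    (h : ∀ k k', ∑ i ∈ B, N i k k' + K * I0.card * N1 k k' ≤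
      c + K * ∑ l ∈ I0, N l k k' + K * N1 k k') {Q : ℕ} (hQ : 1 ≤ Q) :
    ∑ i ∈ B, LM (N i) Q + K * I0.card * LM N1 Q ≤
      c + K * ∑ l ∈ I0, LM (N l) Q + K * LM N1 Q := by
  have t : ∀ N : ℕ → ℕ → ℝ, SK N → Tendsto (fun H : ℕ =>
    (∑ h ∈ range H, ∑ h' ∈ range H, N (Q * h) (Q * h')) / (H : ℝ) ^ 2) atTop (𝓝 (LM N Q)) :=
    fun N hN => (hL N hN).1 Q hQ
  have tl := (tendsto_finsetSum B fun i hi => t (N i) (hB i hi)).add
    ((t N1 h1).const_mul (K * I0.card))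
  have tr := (((tendsto_finsetSum I0 fun i hi => t (N i) (hI i hi)).const_mul K).const_add
    c).add ((t N1 h1).const_mul K)
  refine le_of_tendsto_of_tendsto tl tr (eventually_atTop.2 ⟨1, fun H hH => ?_⟩)
  have hH0 : (0 : ℝ) < (H : ℝ) ^ 2 := by
    have : (0 : ℝ) < H := by exact_mod_cast hH
    positivity
  have s1 : ∑ h ∈ range H, ∑ h' ∈ range H, (∑ i ∈ B, N i (Q * h) (Q * h') +
      K * I0.card * N1 (Q * h) (Q * h')) ≤ ∑ h ∈ range H, ∑ h' ∈ range H,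
      (c + K * ∑ l ∈ I0, N l (Q * h) (Q * h') + K * N1 (Q * h) (Q * h')) :=
    sum_le_sum fun h _ => sum_le_sum fun h' _ => by
      exact (‹∀ k k', ∑ i ∈ B, N i k k' + K * I0.card * N1 k k' ≤
        c + K * ∑ l ∈ I0, N l k k' + K * N1 k k'›) _ _
  have sw : ∀ S : Finset ℕ, ∑ h ∈ range H, ∑ h' ∈ range H, ∑ i ∈ S, N i (Q * h) (Q * h') =
      ∑ i ∈ S, ∑ h ∈ range H, ∑ h' ∈ range H, N i (Q * h) (Q * h') := by
    intro S
    have : ∀ h ∈ range H, ∑ h' ∈ range H, ∑ i ∈ S, N i (Q * h) (Q * h') =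
        ∑ i ∈ S, ∑ h' ∈ range H, N i (Q * h) (Q * h') := fun h _ => sum_comm
    rw [sum_congr rfl this, sum_comm]
  have s2 : ∑ h ∈ range H, ∑ h' ∈ range H, (∑ i ∈ B, N i (Q * h) (Q * h') +
      K * I0.card * N1 (Q * h) (Q * h')) =
      ∑ i ∈ B, ∑ h ∈ range H, ∑ h' ∈ range H, N i (Q * h) (Q * h') +
        K * I0.card * ∑ h ∈ range H, ∑ h' ∈ range H, N1 (Q * h) (Q * h') := by
    simp only [sum_add_distrib, mul_sum]
    rw [sw B]
  have s3 : ∑ h ∈ range H, ∑ h' ∈ range H,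
      (c + K * ∑ l ∈ I0, N l (Q * h) (Q * h') + K * N1 (Q * h) (Q * h')) =
      (H : ℝ) ^ 2 * c + K * ∑ i ∈ I0, ∑ h ∈ range H, ∑ h' ∈ range H, N i (Q * h) (Q * h') +
        K * ∑ h ∈ range H, ∑ h' ∈ range H, N1 (Q * h) (Q * h') := by
    rw [← sw I0]
    simp only [sum_add_distrib, mul_sum, sum_const, card_range, nsmul_eq_mul]
    ring
  rw [s2, s3] at s1
  beta_reduce
  rw [← sum_div, ← sum_div, ← mul_div_assoc, ← mul_div_assoc, ← mul_div_assoc, ← add_div]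
  have e1 : c = (H : ℝ) ^ 2 * c / (H : ℝ) ^ 2 := by field_simp
  rw [e1, ← add_div, ← add_div]
  exact div_le_div_of_nonneg_right s1 hH0.le

/-- coprime products -/
theorem LM_prod (hL : Pool.Agent.Helper40.JZ.ST_LMF) {N : ℕ → ℕ → ℝ} (hN : SK N)
    {S : Finset (Finset ℕ)} (hd : (S : Set (Finset ℕ)).PairwiseDisjoint id)
    (hp : ∀ B ∈ S, B.Nonempty ∧ ∀ p ∈ B, p.Prime) :
    ∑ B ∈ S, (LM N (∏ p ∈ B, p) - LM N 1) ≤ N 0 0 := by
  have two : ∀ B ∈ S, 2 ≤ ∏ p ∈ B, p := by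
    intro B hB
    obtain ⟨⟨p, hpB⟩, h2⟩ := hp B hB
    refine (h2 p hpB).two_le.trans (Nat.le_of_dvd (prod_pos fun q hq => (h2 q hq).pos)
      (dvd_prod_of_mem _ hpB))
  have cop : ∀ B ∈ S, ∀ B' ∈ S, B ≠ B' → Nat.Coprime (∏ p ∈ B, p) (∏ p ∈ B', p) := by
    intro B hB B' hB' hne
    refine Nat.Coprime.prod_left fun p hpB => Nat.Coprime.prod_right fun q hqB => ?_
    refine (Nat.coprime_primes ((hp B hB).2 p hpB) ((hp B' hB').2 q hqB)).2 ?_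
    rintro rfl
    exact disjoint_left.1 (hd (mem_coe.2 hB) (mem_coe.2 hB') hne) hpB hqB
  have inj : Set.InjOn (fun B : Finset ℕ => ∏ p ∈ B, p) S := by
    intro B hB B' hB' he
    by_contra hne
    have h1 := cop B hB B' hB' hne
    have he' : ∏ p ∈ B, p = ∏ p ∈ B', p := he
    rw [← he', Nat.coprime_self] at h1
    have := two B hB
    omega
  have h1 := (hL N hN).2.2.1 (S.image fun B => ∏ p ∈ B, p) (fun q hq => by
      obtain ⟨B, hB, rfl⟩ := mem_image.1 hq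
      exact two B hB) (fun q hq q' hq' hne => by
      obtain ⟨B, hB, rfl⟩ := mem_image.1 hq
      obtain ⟨B', hB', rfl⟩ := mem_image.1 hq'
      exact cop B hB B' hB' fun h => hne (by rw [h]))
  rw [sum_image inj] at h1
  exact h1

/-! ### `q`-local subgroups -/

section loc

variable {Γ : Type} [AddCommGroup Γ]

theorem le_loc (q : ℕ) (B : AddSubgroup Γ) : B ≤ loc q B := fun u hu =>
  ⟨1, by simp, by rw [one_smul]; exact hu⟩

theorem loc_loc (q : ℕ) (B : AddSubgroup Γ) : loc q (loc q B) = loc q B := by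
  refine le_antisymm ?_ (le_loc q _)
  rintro u ⟨m, hm, n, hn, hu⟩
  exact ⟨n * m, Nat.Coprime.mul_left hn hm, by rw [mul_smul]; exact hu⟩

/-- THE MULTIPLICITY in a good block -/
theorem mult (hH : ST_HEL) {D q K M k : ℕ} (hq : q.Prime) (gen : Fin D → Γ)
    (hgen : AddSubgroup.closure (Set.range gen) = ⊤) (hD : D ≤ 2 * k) (_hM : 1 ≤ M)
    {P P' I0 : Finset ℕ} {Δ : ℕ → AddSubgroup Γ} (hΔ : ∀ p ∈ P, loc q (Δ p) = Δ p)
    (F : (Fin D → ℕ) → Finset ℕ)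
    (hF : ∀ a p, p ∈ F a ↔ p ∈ P ∧ ∀ u : Γ, (∀ j, u ∈ Δ (a j)) → u ∈ Δ p)
    (hP' : P' ⊆ P) (hc : P.card ≤ M * P'.card)
    (E : Finset (Fin D → ℕ)) (hE : ∀ a, a ∈ E ↔ a ∈ TT D P ∧
      P.card ≤ M ^ 2 * (P.filter fun x => x ∈ F a).card ∧ ∀ i ∈ I0, i ∉ F a)
    {I : Fin K → ℕ} (hIn : ∀ l, I l ∈ P')
    (hg : ∀ e : Fin D → Fin K, Function.Injective e → I ∘ e ∉ E ∧
        (2 * k ≤ (univ.filter fun l => I l ∈ F (I ∘ e)).card →
          P'.card ≤ M * (P'.filter fun x => x ∈ F (I ∘ e)).card)) (u : Γ) :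
    (univ.filter fun l => u ∈ Δ (I l)).card ≤
      2 * k + K * (I0.filter fun l => u ∈ Δ l).card := by
  set J := univ.filter fun l => u ∈ Δ (I l) with hJ
  have hJK : J.card ≤ K := by
    refine (card_le_univ J).trans ?_
    rw [Fintype.card_fin]
  by_cases hJ2 : J.card < 2 * k
  · omega
  push Not at hJ2
  obtain ⟨J', h1, h2, h3⟩ := hH D q Γ gen (Fin K) J (fun l => Δ (I l)) hq hgen
    fun l _ => hΔ _ (hP' (hIn l))
  obtain ⟨J'', h4, h5, h6⟩ := exists_subsuperset_card_eq h1 h2 (hD.trans hJ2)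
  set e : Fin D → Fin K := ⇑(J''.orderEmbOfFin h6) with he
  have heinj : Function.Injective e := (J''.orderEmbOfFin h6).injective
  have hrange : ∀ l ∈ J'', ∃ j, e j = l := by
    intro l hl
    have : l ∈ Set.range (J''.orderEmbOfFin h6) := by
      rw [range_orderEmbOfFin]
      exact hl
    exact this
  have hmem : ∀ j, e j ∈ J'' := fun j => orderEmbOfFin_mem J'' h6 j
  have hJF : ∀ l ∈ J, I l ∈ F (I ∘ e) := by
    intro l hl
    refine (hF _ _).2 ⟨hP' (hIn l), fun v hv => ?_⟩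
    refine h3 v (fun i hi => ?_) l hl
    obtain ⟨j, hj⟩ := hrange i (h4 hi)
    rw [← hj]
    exact hv j
  obtain ⟨g1, g2⟩ := hg e heinj
  have h7 : 2 * k ≤ (univ.filter fun l => I l ∈ F (I ∘ e)).card :=
    hJ2.trans (card_le_card fun l hl => mem_filter.2 ⟨mem_univ _, hJF l hl⟩)
  have h8 := g2 h7
  have h9 : P.card ≤ M ^ 2 * (P.filter fun x => x ∈ F (I ∘ e)).card := by
    have h10 : (P'.filter fun x => x ∈ F (I ∘ e)).card ≤
        (P.filter fun x => x ∈ F (I ∘ e)).card := card_le_card (filter_subset_filter _ hP')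
    calc P.card ≤ M * P'.card := hc
      _ ≤ M * (M * (P'.filter fun x => x ∈ F (I ∘ e)).card) := Nat.mul_le_mul_left _ h8
      _ ≤ M * (M * (P.filter fun x => x ∈ F (I ∘ e)).card) :=
        Nat.mul_le_mul_left _ (Nat.mul_le_mul_left _ h10)
      _ = M ^ 2 * (P.filter fun x => x ∈ F (I ∘ e)).card := by ring
  have h11 : ∃ i ∈ I0, i ∈ F (I ∘ e) := by
    by_contra hcon
    push Not at hcon
    exact g1 ((hE _).2 ⟨mem_TT.2 fun j => hP' (hIn (e j)), h9, hcon⟩)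
  obtain ⟨i, hi, hiF⟩ := h11
  have h12 : u ∈ Δ i := ((hF _ _).1 hiF).2 u fun j =>
    (mem_filter.1 (h5 (hmem j))).2
  have h13 : 1 ≤ (I0.filter fun l => u ∈ Δ l).card :=
    card_pos.2 ⟨i, mem_filter.2 ⟨hi, h12⟩⟩
  have h14 : K * 1 ≤ K * (I0.filter fun l => u ∈ Δ l).card := Nat.mul_le_mul_left _ h13
  omega

theorem NA_ind (Φ : ℕ → ℕ → Γ → ℝ) (B : AddSubgroup Γ) (k k' : ℕ) :
    NA Φ B k k' = ∑' u, (B : Set Γ).indicator (Φ k k') u :=
  tsum_subtype (B : Set Γ) (Φ k k')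

theorem NA_bot (Φ : ℕ → ℕ → Γ → ℝ) (k k' : ℕ) : NA Φ ⊥ k k' = Φ k k' 0 := by
  rw [NA_ind, tsum_eq_single 0]
  · simp
  · intro u hu
    refine Set.indicator_of_notMem ?_ _
    simpa using hu

theorem NA_mono {Φ : ℕ → ℕ → Γ → ℝ} (h0 : ∀ k k' u, 0 ≤ Φ k k' u)
    (hs : ∀ k k', Summable (Φ k k')) {B B' : AddSubgroup Γ} (h : B ≤ B') (k k' : ℕ) :
    NA Φ B k k' ≤ NA Φ B' k k' := by
  rw [NA_ind, NA_ind]
  refine Summable.tsum_le_tsum (fun u => ?_) ((hs k k').indicator _) ((hs k k').indicator _)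
  exact Set.indicator_le_indicator_of_subset h (fun u => h0 k k' u) u

theorem NA_le {Φ : ℕ → ℕ → Γ → ℝ} {C : ℝ} (h0 : ∀ k k' u, 0 ≤ Φ k k' u)
    (hs : ∀ k k', Summable (Φ k k')) (hC : ∀ k k', ∑' u, Φ k k' u ≤ C) (B : AddSubgroup Γ)
    (k k' : ℕ) : NA Φ B k k' ≤ C := by
  rw [NA_ind]
  refine le_trans ?_ (hC k k')
  refine Summable.tsum_le_tsum (fun u => ?_) ((hs k k').indicator _) (hs k k')
  exact Set.indicator_le_self' (fun _ _ => h0 k k' u) u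

/-- the inequality between the kernels of a good block -/
theorem ker_block {Φ : ℕ → ℕ → Γ → ℝ} {C : ℝ} (h0 : ∀ k k' u, 0 ≤ Φ k k' u)
    (hs : ∀ k k', Summable (Φ k k')) (hC : ∀ k k', ∑' u, Φ k k' u ≤ C)
    {Δ : ℕ → AddSubgroup Γ} {B I0 : Finset ℕ} {K n : ℕ} (hB : B.card = K)
    (hm : ∀ u : Γ, (B.filter fun i => u ∈ Δ i).card ≤
      n + K * (I0.filter fun l => u ∈ Δ l).card) (k k' : ℕ) :
    ∑ i ∈ B, NA Φ (Δ i) k k' + K * I0.card * NA Φ ⊥ k k' ≤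
      n * C + K * ∑ l ∈ I0, NA Φ (Δ l) k k' + K * NA Φ ⊥ k k' := by
  have hsi : ∀ B : AddSubgroup Γ, Summable ((B : Set Γ).indicator (Φ k k')) :=
    fun B => (hs k k').indicator _
  have e1 : ∀ S : Finset ℕ, ∑ i ∈ S, NA Φ (Δ i) k k' =
      ∑' u, ∑ i ∈ S, (Δ i : Set Γ).indicator (Φ k k') u := by
    intro S
    rw [Summable.tsum_finsetSum fun i _ => hsi (Δ i)]
    exact sum_congr rfl fun i _ => NA_ind Φ (Δ i) k k'
  have hss : ∀ S : Finset ℕ, Summable fun u => ∑ i ∈ S, (Δ i : Set Γ).indicator (Φ k k') u :=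
    fun S => summable_sum fun i _ => hsi (Δ i)
  have e2 : ∀ (S : Finset ℕ) (u : Γ), ∑ i ∈ S, (Δ i : Set Γ).indicator (Φ k k') u =
      (S.filter fun i => u ∈ Δ i).card * Φ k k' u := by
    intro S u
    have : ∀ i ∈ S, (Δ i : Set Γ).indicator (Φ k k') u =
        (if u ∈ Δ i then 1 else 0) * Φ k k' u := by
      intro i _
      by_cases h : u ∈ Δ i
      · rw [Set.indicator_of_mem (by exact h), if_pos h, one_mul]
      · rw [Set.indicator_of_notMem (by exact h), if_neg h, zero_mul]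
    rw [sum_congr rfl this, ← sum_mul, sum_boole]
  have t1 : ∑ i ∈ B, NA Φ (Δ i) k k' + K * I0.card * NA Φ ⊥ k k' =
      ∑' u, (∑ i ∈ B, (Δ i : Set Γ).indicator (Φ k k') u +
        K * I0.card * ((⊥ : AddSubgroup Γ) : Set Γ).indicator (Φ k k') u) := by
    rw [Summable.tsum_add (hss B) ((hsi ⊥).mul_left _), tsum_mul_left, ← e1, ← NA_ind]
  have t2 : ∑' u, (n * Φ k k' u + K * ∑ l ∈ I0, (Δ l : Set Γ).indicator (Φ k k') u +
      K * ((⊥ : AddSubgroup Γ) : Set Γ).indicator (Φ k k') u) =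
      n * ∑' u, Φ k k' u + K * ∑ l ∈ I0, NA Φ (Δ l) k k' + K * NA Φ ⊥ k k' := by
    rw [Summable.tsum_add (((hs k k').mul_left _).add ((hss I0).mul_left _))
      ((hsi ⊥).mul_left _), Summable.tsum_add ((hs k k').mul_left _) ((hss I0).mul_left _),
      tsum_mul_left, tsum_mul_left, tsum_mul_left, ← e1, ← NA_ind]
  rw [t1]
  have t3 : ∑' u, (∑ i ∈ B, (Δ i : Set Γ).indicator (Φ k k') u +
        K * I0.card * ((⊥ : AddSubgroup Γ) : Set Γ).indicator (Φ k k') u) ≤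
      ∑' u, (n * Φ k k' u + K * ∑ l ∈ I0, (Δ l : Set Γ).indicator (Φ k k') u +
      K * ((⊥ : AddSubgroup Γ) : Set Γ).indicator (Φ k k') u) := by
    refine Summable.tsum_le_tsum (fun u => ?_) ((hss B).add ((hsi ⊥).mul_left _))
      ((((hs k k').mul_left _).add ((hss I0).mul_left _)).add ((hsi ⊥).mul_left _))
    rw [e2, e2]
    have hφ := h0 k k' u
    by_cases hu : u = 0
    · subst hu
      have b1 : (B.filter fun i => (0 : Γ) ∈ Δ i) = B := filter_true_of_mem fun i _ =>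
        (Δ i).zero_mem
      have b2 : (I0.filter fun i => (0 : Γ) ∈ Δ i) = I0 := filter_true_of_mem fun i _ =>
        (Δ i).zero_mem
      have b3 : ((⊥ : AddSubgroup Γ) : Set Γ).indicator (Φ k k') 0 = Φ k k' 0 := by simp
      rw [b1, b2, b3, hB]
      have : 0 ≤ (n : ℝ) * Φ k k' 0 := by positivity
      linarith
    · have b3 : ((⊥ : AddSubgroup Γ) : Set Γ).indicator (Φ k k') u = 0 :=
        Set.indicator_of_notMem (by simpa using hu) _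
      rw [b3]
      have h1 : ((B.filter fun i => u ∈ Δ i).card : ℝ) ≤
          n + K * (I0.filter fun l => u ∈ Δ l).card := by exact_mod_cast hm u
      have h2 := mul_le_mul_of_nonneg_right h1 hφ
      linarith
  refine t3.trans ?_
  rw [t2]
  have h5 : (n : ℝ) * ∑' u, Φ k k' u ≤ n * C :=
    mul_le_mul_of_nonneg_left (hC k k') (Nat.cast_nonneg _)
  linarith

end loc

/-! ### the constants -/

theorem exists_k (M D : ℕ) : ∃ k : ℕ, 1 ≤ k ∧ D ≤ 2 * k ∧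
    ((M * k : ℕ) : ℝ) ^ D * (2 ^ D * (3 / 4) ^ k) ≤ 1 / 8 := by
  have h1 : Tendsto (fun k : ℕ => ((M : ℝ) ^ D * 2 ^ D) * ((k : ℝ) ^ D * (3 / 4) ^ k)) atTop
      (𝓝 (((M : ℝ) ^ D * 2 ^ D) * 0)) :=
    (tendsto_pow_const_mul_const_pow_of_abs_lt_one D (r := (3 / 4 : ℝ)) (by
      rw [abs_of_pos (by norm_num)]
      norm_num)).const_mul _
  rw [mul_zero] at h1
  have h2 := h1.eventually (ge_mem_nhds (show (0 : ℝ) < 1 / 8 by norm_num))
  obtain ⟨k, h3, h4, h5⟩ := (h2.and ((eventually_ge_atTop 1).and (eventually_ge_atTop D))).exists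
  refine ⟨k, h4, by omega, ?_⟩
  push_cast
  rw [mul_pow]
  calc (M : ℝ) ^ D * (k : ℝ) ^ D * (2 ^ D * (3 / 4) ^ k) =
      ((M : ℝ) ^ D * 2 ^ D) * ((k : ℝ) ^ D * (3 / 4) ^ k) := by ring
    _ ≤ 1 / 8 := h3

theorem exists_K0 (M K D : ℕ) (hM : 2 ≤ M) : ∃ K0 : ℕ,
    (K : ℝ) ^ D * ((M : ℝ) ^ D * (1 - 1 / (M : ℝ) ^ 2) ^ K0) ≤ 1 / 4 := by
  have hM' : (2 : ℝ) ≤ M := by exact_mod_cast hM
  have h0 : 0 < 1 / (M : ℝ) ^ 2 := by positivity
  have h1 : 1 / (M : ℝ) ^ 2 ≤ 1 := by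
    rw [div_le_one (by positivity)]
    nlinarith
  have h2 : Tendsto (fun n : ℕ => ((K : ℝ) ^ D * (M : ℝ) ^ D) * (1 - 1 / (M : ℝ) ^ 2) ^ n) atTop
      (𝓝 (((K : ℝ) ^ D * (M : ℝ) ^ D) * 0)) :=
    (tendsto_pow_atTop_nhds_zero_of_lt_one (by linarith) (by linarith)).const_mul _
  rw [mul_zero] at h2
  obtain ⟨n, hn⟩ := (h2.eventually (ge_mem_nhds (show (0 : ℝ) < 1 / 4 by norm_num))).exists
  refine ⟨n, ?_⟩
  calc (K : ℝ) ^ D * ((M : ℝ) ^ D * (1 - 1 / (M : ℝ) ^ 2) ^ n) =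
      ((K : ℝ) ^ D * (M : ℝ) ^ D) * (1 - 1 / (M : ℝ) ^ 2) ^ n := by ring
    _ ≤ 1 / 4 := hn

end Pool.Agent.Helper40.KZ.CNT

namespace Pool.Agent.Helper40.KZ

open Pool.Agent.Helper40.DZ (SK)
open Pool.Agent.Helper40.JZ (LM)
open CNT
open scoped Classical

/-- CNT -/
theorem st_CNT (hH : ST_HEL) (hL : Pool.Agent.Helper40.JZ.ST_LMF) : ST_CNT := by
  intro κ D hκ
  obtain ⟨M0, hM0⟩ := exists_nat_ge (4 / κ)
  set M : ℕ := M0 + 2 with hMdef
  have hM2 : 2 ≤ M := by omega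
  have hMR : (0 : ℝ) < M := by exact_mod_cast (by omega : 0 < M)
  have hMκ : 4 / (M : ℝ) ≤ κ := by
    rw [div_le_iff₀ hMR, ← div_le_iff₀' hκ]
    refine hM0.trans ?_
    rw [hMdef]
    push_cast
    linarith
  obtain ⟨k, hk1, hkD, hkb⟩ := exists_k M D
  obtain ⟨K, hK⟩ : ∃ K, K = M * k := ⟨_, rfl⟩
  rw [← hK] at hkb
  have hK2 : 2 ≤ K := by
    rw [hK]
    nlinarith
  have hKk : 2 * k ≤ K := by
    rw [hK]
    exact Nat.mul_le_mul_right _ hM2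
  have hDK : D ≤ K := hkD.trans hKk
  obtain ⟨K0, hK0⟩ := exists_K0 M K D hM2
  refine ⟨K0 + 1, K * K0 + K + 8 * K ^ 2, ?_⟩
  intro q Γ _ gen Φ N₀ C η Al P Δ hq hgen hC hη h0 hs hΦC hN₀ hN₀Φ hbot hloc hAl hP hΔ
  -- local types
  set Δ' : ℕ → AddSubgroup Γ := fun p => loc q (Δ p) with hΔ'
  have hΔ'A : ∀ p ∈ P, Al (Δ' p) := fun p hp => hloc _ (hΔ p hp)
  have hΔ'l : ∀ p ∈ P, loc q (Δ' p) = Δ' p := fun p _ => loc_loc q _
  have hSK : ∀ B, Al B → SK (NA Φ B) := fun B hB => (hAl B hB).1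
  have hC0 : ∀ B, NA Φ B 0 0 ≤ C := fun B => NA_le h0 hs hΦC B 0 0
  -- the two bounds for one prime
  have one : ∀ p ∈ P, LM (NA Φ (Δ p)) p - LM N₀ p ≤ LM (NA Φ (Δ' p)) p - LM N₀ p := by
    intro p hp
    have := (hL _ (hSK _ (hΔ p hp))).2.2.2.2 _ (hSK _ (hΔ'A p hp))
      (fun k k' => NA_mono h0 hs (CNT.le_loc q (Δ p)) k k') p (hP p hp).one_le
    linarith
  refine (sum_le_sum one).trans ?_
  have lef : ∀ p ∈ P, LM (NA Φ (Δ' p)) p - LM N₀ p ≤ 2 * C := by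
    intro p hp
    have h1 := LM_le2 hL (hSK _ (hΔ'A p hp)) (hP p hp).two_le
    have h2 := LM_nonneg hL hN₀ (hP p hp).one_le
    have h3 := hC0 (Δ' p)
    linarith
  have hL0 : ∀ p ∈ P, LM N₀ 1 ≤ LM N₀ p := by
    intro p hp
    have := (hL N₀ hN₀).2.1 1 p le_rfl (hP p hp).one_le
    rwa [one_mul] at this
  rcases P.eq_empty_or_nonempty with rfl | hPne
  · simp only [sum_empty, card_empty, Nat.cast_zero, zero_mul, zero_add]
    positivity
  -- the net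
  set F : (Fin D → ℕ) → Finset ℕ := fun a =>
    P.filter fun p => ∀ u : Γ, (∀ j, u ∈ Δ' (a j)) → u ∈ Δ' p with hFdef
  have hF : ∀ a p, p ∈ F a ↔ p ∈ P ∧ ∀ u : Γ, (∀ j, u ∈ Δ' (a j)) → u ∈ Δ' p :=
    fun a p => mem_filter
  obtain ⟨E0, hE0⟩ : ∃ E : Finset (Fin D → ℕ), ∀ a, a ∈ E ↔ a ∈ TT D P ∧
      P.card ≤ M ^ 2 * (P.filter fun x => x ∈ F a).card :=
    ⟨(TT D P).filter _, fun a => mem_filter⟩
  have hc1 : 1 / (M : ℝ) ^ 2 ≤ 1 := by
    rw [div_le_one (by positivity)]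
    have : (2 : ℝ) ≤ M := by exact_mod_cast hM2
    nlinarith
  obtain ⟨I0, hI0P, hI0c, hI0E⟩ := net P hPne F (1 / (M : ℝ) ^ 2) hc1 E0 (fun a ha => by
    have h1 := ((hE0 a).1 ha).2
    have h2 : (P.card : ℝ) ≤ (M : ℝ) ^ 2 * (P.filter fun x => x ∈ F a).card := by
      exact_mod_cast h1
    rw [one_div, inv_mul_le_iff₀ (by positivity)]
    exact h2) K0
  obtain ⟨E, hE⟩ : ∃ E : Finset (Fin D → ℕ), E = E0.filter fun a => ∀ i ∈ I0, i ∉ F a :=
    ⟨_, rfl⟩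
  rw [← hE] at hI0E
  have hEm : ∀ a, a ∈ E ↔ a ∈ TT D P ∧ P.card ≤ M ^ 2 * (P.filter fun x => x ∈ F a).card ∧
      ∀ i ∈ I0, i ∉ F a := by
    intro a
    rw [hE, mem_filter, hE0, and_assoc]
  have hE0c : (E0.card : ℝ) ≤ (P.card : ℝ) ^ D := by
    have h1 : E0 ⊆ TT D P := fun a ha => ((hE0 a).1 ha).1
    have h2 := card_le_card h1
    rw [TT_card] at h2
    exact_mod_cast h2
  -- the good blocks
  let G : Finset ℕ → Prop := fun B => ∀ u : Γ, (B.filter fun i => u ∈ Δ' i).card ≤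
      2 * k + K * (I0.filter fun l => u ∈ Δ' l).card
  have hgb : ∀ P' ⊆ P, P.card / M + 4 * K ^ 2 + 1 ≤ P'.card → ∃ B ⊆ P', B.card = K ∧ G B := by
    intro P' hP' hc
    have hcM : P.card ≤ M * P'.card := by
      have h1 : P.card < M * (P.card / M + 1) := by
        have := Nat.lt_mul_div_succ P.card (by omega : 0 < M)
        simpa [Nat.succ_eq_add_one] using this
      refine h1.le.trans (Nat.mul_le_mul_left _ ?_)
      have : 0 ≤ 4 * K ^ 2 := Nat.zero_le _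
      omega
    have hEc : (K : ℝ) ^ D * E.card ≤ 1 / 4 * (P'.card : ℝ) ^ D := by
      have h1 : (P.card : ℝ) ^ D ≤ (M : ℝ) ^ D * (P'.card : ℝ) ^ D := by
        rw [← mul_pow]
        exact pow_le_pow_left₀ (by positivity) (by exact_mod_cast hcM) D
      have h3 : 0 ≤ (1 - 1 / (M : ℝ) ^ 2) ^ K0 := pow_nonneg (by linarith) _
      calc (K : ℝ) ^ D * E.card ≤ (K : ℝ) ^ D * ((1 - 1 / (M : ℝ) ^ 2) ^ K0 * E0.card) :=
            mul_le_mul_of_nonneg_left hI0E (by positivity)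
        _ ≤ (K : ℝ) ^ D * ((1 - 1 / (M : ℝ) ^ 2) ^ K0 * ((M : ℝ) ^ D * (P'.card : ℝ) ^ D)) :=
            mul_le_mul_of_nonneg_left (mul_le_mul_of_nonneg_left (hE0c.trans h1) h3)
              (by positivity)
        _ = (K : ℝ) ^ D * ((M : ℝ) ^ D * (1 - 1 / (M : ℝ) ^ 2) ^ K0) * (P'.card : ℝ) ^ D := by
            ring
        _ ≤ 1 / 4 * (P'.card : ℝ) ^ D := mul_le_mul_of_nonneg_right hK0 (by positivity)
    have h4K : 4 * K ^ 2 ≤ P'.card := by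
      have h1 := Nat.zero_le (P.card / M)
      omega
    obtain ⟨I, hI1, hI2, hI3⟩ := good (by omega : 1 ≤ M) hK hDK hK2 hkb F P' h4K E hEc
    refine ⟨univ.image I, ?_, ?_, ?_⟩
    · intro x hx
      obtain ⟨l, -, rfl⟩ := mem_image.1 hx
      exact hI2 l
    · rw [card_image_of_injective _ hI1, card_univ, Fintype.card_fin]
    · intro u
      have h1 := mult hH hq gen hgen hkD (by omega : 1 ≤ M) hΔ'l F hF hP' hcM E hEm hI2 hI3 u
      refine le_trans (le_of_eq ?_) h1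
      rw [filter_image, card_image_of_injective _ hI1]
  obtain ⟨S, R, hS1, hS2, hR1, hSR, hSRP, hR2⟩ :=
    greedy G K (P.card / M + 4 * K ^ 2 + 1) (by omega) P hgb P.card P rfl subset_rfl
  -- one block
  have hSp : ∀ B ∈ S, B.Nonempty ∧ ∀ p ∈ B, p.Prime := by
    intro B hB
    obtain ⟨b1, b2, -⟩ := hS1 B hB
    refine ⟨card_pos.1 (by omega), fun p hp => hP p (b1 hp)⟩
  have hA1 : LM N₀ 1 ≤ LM (NA Φ ⊥) 1 :=
    (hL N₀ hN₀).2.2.2.2 _ (hSK ⊥ hbot) (fun k k' => by rw [NA_bot]; exact hN₀Φ k k') 1 le_rfl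
  have blk : ∀ B ∈ S, ∑ p ∈ B, (LM (NA Φ (Δ' p)) p - LM N₀ p) ≤ 2 * k * C +
      K * ∑ l ∈ I0, (LM (NA Φ (Δ' l)) (∏ p ∈ B, p) - LM (NA Φ (Δ' l)) 1) +
      K * (LM (NA Φ ⊥) (∏ p ∈ B, p) - LM (NA Φ ⊥) 1) + K * ((K0 + 1) * η) := by
    intro B hB
    obtain ⟨b1, b2, b3⟩ := hS1 B hB
    have hQpos : 1 ≤ ∏ p ∈ B, p := Nat.one_le_iff_ne_zero.2 (prod_ne_zero_iff.2 fun p hp =>
      (hP p (b1 hp)).ne_zero)
    obtain ⟨Q, hQ⟩ : ∃ Q, Q = ∏ p ∈ B, p := ⟨_, rfl⟩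
    rw [← hQ] at hQpos ⊢
    have s1 : ∑ p ∈ B, (LM (NA Φ (Δ' p)) p - LM N₀ p) ≤
        ∑ p ∈ B, (LM (NA Φ (Δ' p)) Q - LM N₀ 1) := by
      refine sum_le_sum fun p hp => ?_
      have hpP := b1 hp
      obtain ⟨c, hc⟩ : p ∣ Q := hQ ▸ dvd_prod_of_mem (fun p => p) hp
      have hc1 : 1 ≤ c := by
        rcases Nat.eq_zero_or_pos c with h | h
        · rw [h, mul_zero] at hc
          omega
        · exact h
      have h1 := (hL _ (hSK _ (hΔ'A p hpP))).2.1 p c (hP p hpP).one_le hc1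
      rw [← hc] at h1
      have h2 := hL0 p hpP
      linarith
    have s2 := LM_block hL (B := B) (I0 := I0) (N := fun i => NA Φ (Δ' i)) (N1 := NA Φ ⊥)
      (K := K) (c := ((2 * k : ℕ) : ℝ) * C) (fun i hi => hSK _ (hΔ'A i (b1 hi)))
      (fun i hi => hSK _ (hΔ'A i (hI0P hi))) (hSK ⊥ hbot)
      (fun k k' => ker_block h0 hs hΦC b2 b3 k k') hQpos
    have s3 : ∑ p ∈ B, (LM (NA Φ (Δ' p)) Q - LM N₀ 1) =
        ∑ p ∈ B, LM (NA Φ (Δ' p)) Q - K * LM N₀ 1 := by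
      rw [sum_sub_distrib, sum_const, b2, nsmul_eq_mul]
    have s4 : LM (NA Φ ⊥) 1 ≤ LM (NA Φ ⊥) Q := by
      have := (hL _ (hSK ⊥ hbot)).2.1 1 Q le_rfl hQpos
      rwa [one_mul] at this
    have s5 : LM (NA Φ ⊥) 1 ≤ LM N₀ 1 + η := (hAl ⊥ hbot).2
    have s6 : ∑ l ∈ I0, LM (NA Φ (Δ' l)) Q ≤ ∑ l ∈ I0, (LM (NA Φ (Δ' l)) Q -
        LM (NA Φ (Δ' l)) 1) + I0.card * (LM N₀ 1 + η) := by
      rw [sum_sub_distrib]
      have : ∑ l ∈ I0, LM (NA Φ (Δ' l)) 1 ≤ I0.card * (LM N₀ 1 + η) := by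
        rw [← nsmul_eq_mul]
        exact sum_le_card_nsmul _ _ _ fun l hl => (hAl _ (hΔ'A l (hI0P hl))).2
      linarith
    have hKR : (0 : ℝ) ≤ K := Nat.cast_nonneg _
    have s7 := mul_le_mul_of_nonneg_left s6 hKR
    have s8 : (K : ℝ) * I0.card * LM N₀ 1 ≤ K * I0.card * LM (NA Φ ⊥) Q :=
      mul_le_mul_of_nonneg_left (hA1.trans s4) (by positivity)
    have s9 : (K : ℝ) * LM (NA Φ ⊥) 1 ≤ K * (LM N₀ 1 + η) := mul_le_mul_of_nonneg_left s5 hKR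
    have s10 : (K : ℝ) * (I0.card * η) ≤ K * (K0 * η) :=
      mul_le_mul_of_nonneg_left (mul_le_mul_of_nonneg_right (by exact_mod_cast hI0c) hη) hKR
    have e1 : (((2 * k : ℕ) : ℕ) : ℝ) = 2 * k := by push_cast; ring
    rw [e1] at s2
    rw [s3] at s1
    nlinarith
  -- the sum over the blocks
  have hsumP : ∑ p ∈ P, (LM (NA Φ (Δ' p)) p - LM N₀ p) =
      ∑ B ∈ S, ∑ p ∈ B, (LM (NA Φ (Δ' p)) p - LM N₀ p) +
        ∑ p ∈ R, (LM (NA Φ (Δ' p)) p - LM N₀ p) := by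
    conv_lhs => rw [← hSRP]
    rw [sum_union hSR, sum_biUnion hS2]
    rfl
  have hcard : S.card * K ≤ P.card := by
    have h1 : (S.biUnion id).card = ∑ B ∈ S, B.card := card_biUnion hS2
    have h2 : ∑ B ∈ S, B.card = S.card * K := by
      rw [sum_const_nat fun B hB => (hS1 B hB).2.1]
    have h3 : (S.biUnion id).card ≤ P.card := card_le_card (by
      rw [← hSRP]
      exact subset_union_left)
    omega
  have hcardR : (S.card : ℝ) * K ≤ P.card := by exact_mod_cast hcard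
  have t1 : ∑ B ∈ S, ∑ p ∈ B, (LM (NA Φ (Δ' p)) p - LM N₀ p) ≤
      S.card * (2 * k * C) + K * (K0 * C) + K * C + S.card * (K * ((K0 + 1) * η)) := by
    refine (sum_le_sum blk).trans ?_
    rw [sum_add_distrib, sum_add_distrib, sum_add_distrib, sum_const, sum_const, nsmul_eq_mul,
      nsmul_eq_mul, ← mul_sum, ← mul_sum]
    have u1 : ∑ B ∈ S, ∑ l ∈ I0, (LM (NA Φ (Δ' l)) (∏ p ∈ B, p) - LM (NA Φ (Δ' l)) 1) ≤
        K0 * C := by
      rw [sum_comm]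
      refine (sum_le_card_nsmul _ _ C fun l hl => ?_).trans ?_
      · exact (LM_prod hL (hSK _ (hΔ'A l (hI0P hl))) hS2 hSp).trans (hC0 _)
      · rw [nsmul_eq_mul]
        exact mul_le_mul_of_nonneg_right (by exact_mod_cast hI0c) hC
    have u2 : ∑ B ∈ S, (LM (NA Φ ⊥) (∏ p ∈ B, p) - LM (NA Φ ⊥) 1) ≤ C :=
      (LM_prod hL (hSK ⊥ hbot) hS2 hSp).trans (hC0 _)
    have hKR : (0 : ℝ) ≤ K := Nat.cast_nonneg _
    have u3 := mul_le_mul_of_nonneg_left u1 hKR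
    have u4 := mul_le_mul_of_nonneg_left u2 hKR
    linarith
  have hRc : (R.card : ℝ) ≤ P.card / M + 4 * K ^ 2 := by
    have h1 : R.card ≤ P.card / M + 4 * K ^ 2 := by
      rcases hR2 with h | h
      · rw [h, card_empty]
        exact Nat.zero_le _
      · omega
    have h2 : (R.card : ℝ) ≤ ((P.card / M + 4 * K ^ 2 : ℕ) : ℝ) := by exact_mod_cast h1
    refine h2.trans ?_
    push_cast
    have h3 : ((P.card / M : ℕ) : ℝ) ≤ P.card / M := Nat.cast_div_le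
    linarith
  have t2 : ∑ p ∈ R, (LM (NA Φ (Δ' p)) p - LM N₀ p) ≤ (P.card / M + 4 * K ^ 2) * (2 * C) := by
    refine (sum_le_card_nsmul _ _ (2 * C) fun p hp => lef p (hR1 hp)).trans ?_
    rw [nsmul_eq_mul]
    exact mul_le_mul_of_nonneg_right hRc (by positivity)
  rw [hsumP]
  have hKM : (K : ℝ) = M * k := by
    rw [hK]
    push_cast
    ring
  have t3 : (S.card : ℝ) * (2 * k * C) ≤ P.card * (2 / M * C) := by
    have e : (S.card : ℝ) * (2 * k * C) = (S.card * K) * (2 / M * C) := by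
      rw [hKM]
      field_simp
    rw [e]
    exact mul_le_mul_of_nonneg_right hcardR (by positivity)
  have t4 : (S.card : ℝ) * (K * ((K0 + 1) * η)) ≤ P.card * ((K0 + 1) * η) := by
    rw [← mul_assoc]
    exact mul_le_mul_of_nonneg_right hcardR (by positivity)
  have t5 : (P.card : ℝ) * (4 / M * C) ≤ P.card * (κ * C) :=
    mul_le_mul_of_nonneg_left (mul_le_mul_of_nonneg_right hMκ hC) (Nat.cast_nonneg _)
  have e3 : (P.card : ℝ) * (4 / M * C) = P.card * (2 / M * C) + P.card / M * (2 * C) := by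
    field_simp
    ring
  push_cast
  nlinarith

end Pool.Agent.Helper40.KZ
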