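import Pool.Agent.Helper40.KZ.Stmts

/-!
Row CNT of sheet K5 (MP_7a8f48_an), part A: the combinatorics. A net for a family of sets, good
tuples, a partition into good blocks.
-/

open Finset Filter Topology

namespace Pool.Agent.Helper40.KZ.CNT

open scoped Classical

/-- THE NET -/
theorem net {ι : Type} (P : Finset ℕ) (hP : P.Nonempty) (F : ι → Finset ℕ) (c : ℝ)
    (hc1 : c ≤ 1) (E : Finset ι)
    (hF : ∀ a ∈ E, c * P.card ≤ ((P.filter fun x => x ∈ F a).card : ℝ)) (K0 : ℕ) :
    ∃ I0 ⊆ P, I0.card ≤ K0 ∧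
      ((E.filter fun a => ∀ i ∈ I0, i ∉ F a).card : ℝ) ≤ (1 - c) ^ K0 * E.card := by
  induction K0 with
  | zero => exact ⟨∅, empty_subset _, le_rfl, by simp⟩
  | succ n ih =>
    obtain ⟨I0, h1, h2, h3⟩ := ih
    set E' := E.filter fun a => ∀ i ∈ I0, i ∉ F a with hE'
    obtain ⟨i, hi, h4⟩ : ∃ i ∈ P, c * (E'.card : ℝ) ≤
        ((E'.filter fun a => i ∈ F a).card : ℝ) := by
      by_contra hcon
      push Not at hcon
      have s1 : ∑ i ∈ P, ((E'.filter fun a => i ∈ F a).card : ℝ) <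
          ∑ i ∈ P, c * (E'.card : ℝ) := sum_lt_sum_of_nonempty hP hcon
      have s2 : ∑ i ∈ P, ((E'.filter fun a => i ∈ F a).card : ℝ) =
          ∑ a ∈ E', ((P.filter fun x => x ∈ F a).card : ℝ) := by
        simp only [card_filter, Nat.cast_sum]
        rw [sum_comm]
      have s3 : ∑ a ∈ E', c * (P.card : ℝ) ≤ ∑ a ∈ E', ((P.filter fun x => x ∈ F a).card : ℝ) :=
        sum_le_sum fun a ha => hF a (mem_filter.1 ha).1
      rw [sum_const, nsmul_eq_mul] at s1 s3
      have : (E'.card : ℝ) * (c * P.card) = P.card * (c * E'.card) := by ring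
      linarith
    refine ⟨insert i I0, insert_subset hi h1, (card_insert_le _ _).trans (by omega), ?_⟩
    have e1 : (E.filter fun a => ∀ j ∈ insert i I0, j ∉ F a) = E'.filter fun a => ¬ i ∈ F a := by
      ext a
      simp only [hE', mem_filter, mem_insert, forall_eq_or_imp]
      tauto
    have e2 := card_filter_add_card_filter_not (s := E') fun a => i ∈ F a
    have e3 : ((E'.filter fun a => ¬ i ∈ F a).card : ℝ) =
        E'.card - (E'.filter fun a => i ∈ F a).card := by
      rw [← e2]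
      push_cast
      ring
    rw [e1, e3, pow_succ]
    have h5 : (1 - c) * (E'.card : ℝ) ≤ (1 - c) * ((1 - c) ^ n * E.card) :=
      mul_le_mul_of_nonneg_left h3 (by linarith)
    nlinarith

/-- the tuples -/
noncomputable def TT (K : ℕ) (P : Finset ℕ) : Finset (Fin K → ℕ) :=
  Fintype.piFinset fun _ : Fin K => P

theorem TT_card (K : ℕ) (P : Finset ℕ) : (TT K P).card = P.card ^ K := by
  simp [TT]

theorem mem_TT {K : ℕ} {P : Finset ℕ} {I : Fin K → ℕ} : I ∈ TT K P ↔ ∀ l, I l ∈ P := by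
  simp [TT]

/-- weighted sums over the tuples with given values at `D` places -/
theorem piw {D K : ℕ} (P : Finset ℕ) (e : Fin D → Fin K) (he : Function.Injective e)
    (a : Fin D → ℕ) (w : ℕ → ℝ) (b : ℝ) (hw0 : ∀ x, 0 ≤ w x) (hwb : ∀ x, w x ≤ b) :
    ∑ I ∈ (TT K P).filter (fun I => I ∘ e = a), ∏ k, w (I k) ≤
      b ^ D * (∑ x ∈ P, w x) ^ (K - D) := by
  have hb : 0 ≤ b := (hw0 0).trans (hwb 0)
  have e1 : (TT K P).filter (fun I => I ∘ e = a) =
      Fintype.piFinset fun k => P.filter fun x => ∀ j, e j = k → x = a j := by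
    ext I
    simp only [mem_filter, mem_TT, Fintype.mem_piFinset]
    constructor
    · rintro ⟨h1, h2⟩ k
      refine ⟨h1 k, fun j hj => ?_⟩
      rw [← hj, ← h2]
      rfl
    · intro h
      refine ⟨fun k => (h k).1, ?_⟩
      funext j
      exact (h (e j)).2 j rfl
  rw [e1, ← prod_univ_sum]
  have h1 : ∀ k : Fin K, ∑ x ∈ P.filter (fun x => ∀ j, e j = k → x = a j), w x ≤
      if k ∈ univ.image e then b else ∑ x ∈ P, w x := by
    intro k
    split_ifs with hk
    · obtain ⟨j, -, hj⟩ := mem_image.1 hk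
      have hs : P.filter (fun x => ∀ j, e j = k → x = a j) ⊆ {a j} := by
        intro x hx
        rw [mem_singleton]
        exact (mem_filter.1 hx).2 j hj
      refine (sum_le_sum_of_subset_of_nonneg hs fun x _ _ => hw0 x).trans ?_
      rw [sum_singleton]
      exact hwb _
    · exact sum_le_sum_of_subset_of_nonneg (filter_subset _ _) fun x _ _ => hw0 x
  refine (prod_le_prod (fun k _ => sum_nonneg fun x _ => hw0 x) fun k _ => h1 k).trans ?_
  rw [prod_ite, prod_const, prod_const]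
  have c1 : (univ.filter fun k : Fin K => k ∈ univ.image e) = univ.image e := by
    ext k
    simp
  have c2 : (univ.image e).card = D := by
    rw [card_image_of_injective _ he, card_univ, Fintype.card_fin]
  have c3 := card_filter_add_card_filter_not (s := (univ : Finset (Fin K)))
    fun k => k ∈ univ.image e
  rw [card_univ, Fintype.card_fin] at c3
  rw [c1, c2] at c3
  rw [c1, c2]
  have c4 : (univ.filter fun k : Fin K => ¬ k ∈ univ.image e).card = K - D := by omega
  rw [c4]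

/-- tuples with a sub-tuple in a given set -/
theorem cnt3 {D K : ℕ} (P : Finset ℕ) (e : Fin D → Fin K) (he : Function.Injective e)
    (E : Finset (Fin D → ℕ)) (S : Finset (Fin K → ℕ)) (hS : ∀ I ∈ S, I ∈ TT K P ∧ I ∘ e ∈ E) :
    (S.card : ℝ) ≤ E.card * (P.card : ℝ) ^ (K - D) := by
  have h1 := card_eq_sum_card_fiberwise (f := fun I : Fin K → ℕ => I ∘ e)
    (s := S) (t := E) (fun I hI => mem_coe.2 (hS I (mem_coe.1 hI)).2)
  rw [h1, Nat.cast_sum]
  refine (sum_le_card_nsmul _ _ ((P.card : ℝ) ^ (K - D)) fun a ha => ?_).trans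
    (le_of_eq (nsmul_eq_mul _ _))
  have h2 := piw P e he a (fun _ => 1) 1 (fun _ => zero_le_one) (fun _ => le_rfl)
  simp only [prod_const_one, one_pow, one_mul, sum_const, nsmul_eq_mul, mul_one] at h2
  refine le_trans ?_ h2
  exact_mod_cast card_le_card fun I hI => by
    simp only [mem_filter] at hI ⊢
    exact ⟨(hS I hI.1).1, hI.2⟩

/-- the union over all sub-tuples -/
theorem un {D K : ℕ} (P : Finset ℕ) (Q : (Fin D → Fin K) → (Fin K → ℕ) → Prop) (c : ℝ)
    (h : ∀ e, Function.Injective e → ∀ S : Finset (Fin K → ℕ),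
      (∀ I ∈ S, I ∈ TT K P ∧ Q e I) → (S.card : ℝ) ≤ c)
    (hc : 0 ≤ c) (S : Finset (Fin K → ℕ))
    (hS : ∀ I ∈ S, I ∈ TT K P ∧ ∃ e, Function.Injective e ∧ Q e I) :
    (S.card : ℝ) ≤ (K : ℝ) ^ D * c := by
  have h1 : S ⊆ (univ.filter fun e : Fin D → Fin K => Function.Injective e).biUnion fun e =>
        S.filter fun I => Q e I := by
    intro I hI
    obtain ⟨h2, e, h3, h4⟩ := hS I hI
    exact mem_biUnion.2 ⟨e, mem_filter.2 ⟨mem_univ _, h3⟩, mem_filter.2 ⟨hI, h4⟩⟩
  have h2 := (card_le_card h1).trans card_biUnion_le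
  have h3 : (S.card : ℝ) ≤ ∑ e ∈ univ.filter fun e : Fin D → Fin K => Function.Injective e,
        ((S.filter fun I => Q e I).card : ℝ) := by exact_mod_cast h2
  refine h3.trans ((sum_le_card_nsmul _ _ c fun e he => h e (mem_filter.1 he).2 _ fun I hI =>
    ⟨(hS I (mem_filter.1 hI).1).1, (mem_filter.1 hI).2⟩).trans ?_)
  rw [nsmul_eq_mul]
  refine mul_le_mul_of_nonneg_right ?_ hc
  have h4 : (univ.filter fun e : Fin D → Fin K => Function.Injective e).card ≤ K ^ D := by
    refine (card_filter_le _ _).trans ?_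
    rw [card_univ, Fintype.card_fun, Fintype.card_fin, Fintype.card_fin]
  exact_mod_cast h4

theorem pow_three {M : ℕ} (hM : 1 ≤ M) (k n : ℕ) (hn : n ≤ M * k) :
    (1 + 1 / (M : ℝ)) ^ n ≤ 3 ^ k := by
  have hM0 : (0 : ℝ) < M := by exact_mod_cast hM
  have h1 : (1 : ℝ) ≤ 1 + 1 / M := by
    have : (0 : ℝ) < 1 / M := by positivity
    linarith
  refine (pow_le_pow_right₀ h1 hn).trans ?_
  rw [pow_mul]
  refine pow_le_pow_left₀ (by positivity) ?_ k
  have h2 : 1 + 1 / (M : ℝ) ≤ Real.exp (1 / M) := by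
    have := Real.add_one_le_exp (1 / (M : ℝ))
    linarith
  have h3 := pow_le_pow_left₀ (by positivity) h2 M
  refine h3.trans ?_
  rw [← Real.exp_nat_mul, mul_one_div_cancel hM0.ne']
  have := Real.exp_one_lt_d9
  linarith

/-- a bad pair: a tuple which meets a small set too often -/
def Bad {D K : ℕ} (M k : ℕ) (P : Finset ℕ) (F : (Fin D → ℕ) → Finset ℕ) (a : Fin D → ℕ)
    (I : Fin K → ℕ) : Prop :=
  M * (P.filter fun x => x ∈ F a).card < P.card ∧ 2 * k ≤ (univ.filter fun l => I l ∈ F a).card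

/-- tuples which meet a small set too often -/
theorem cnt2 {D K M k : ℕ} (hM : 1 ≤ M) (hK : K = M * k) (hD : D ≤ K) (P : Finset ℕ)
    (F : (Fin D → ℕ) → Finset ℕ) (e : Fin D → Fin K) (he : Function.Injective e)
    (S : Finset (Fin K → ℕ)) (hS : ∀ I ∈ S, I ∈ TT K P ∧ Bad M k P F (I ∘ e) I) :
    (S.card : ℝ) ≤ (P.card : ℝ) ^ K * (2 ^ D * (3 / 4) ^ k) := by
  have hM0 : (0 : ℝ) < M := by exact_mod_cast hM
  have h1 := card_eq_sum_card_fiberwise (f := fun I : Fin K → ℕ => I ∘ e)
    (s := S) (t := TT D P) (fun I hI => by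
      have := mem_TT.1 (hS I (mem_coe.1 hI)).1
      exact mem_coe.2 (mem_TT.2 fun l => this (e l)))
  rw [h1, Nat.cast_sum]
  refine (sum_le_card_nsmul _ _ ((P.card : ℝ) ^ (K - D) * (2 ^ D * (3 / 4) ^ k))
    fun a ha => ?_).trans (le_of_eq ?_)
  · by_cases hc : M * (P.filter fun x => x ∈ F a).card < P.card
    · have h2 := piw P e he a (fun x => if x ∈ F a then 2 else 1) 2
        (fun x => by split_ifs <;> norm_num) (fun x => by split_ifs <;> norm_num)
      have h3 : ∑ x ∈ P, (if x ∈ F a then (2 : ℝ) else 1) ≤ P.card * (1 + 1 / M) := by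
        have e1 : ∑ x ∈ P, (if x ∈ F a then (2 : ℝ) else 1) =
            P.card + (P.filter fun x => x ∈ F a).card := by
          have e2 : ∀ x ∈ P, (if x ∈ F a then (2 : ℝ) else 1) = 1 + if x ∈ F a then 1 else 0 := by
            intro x _
            split_ifs <;> norm_num
          rw [sum_congr rfl e2, sum_add_distrib, sum_const, nsmul_eq_mul, mul_one, sum_boole]
        rw [e1, mul_add, mul_one]
        have h4 : (M : ℝ) * (P.filter fun x => x ∈ F a).card ≤ P.card := by exact_mod_cast hc.le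
        have h5 : ((P.filter fun x => x ∈ F a).card : ℝ) ≤ P.card * (1 / M) := by
          rw [mul_one_div, le_div_iff₀ hM0]
          linarith
        linarith
      have h4 : ((S.filter fun I => I ∘ e = a).card : ℝ) * 4 ^ k ≤
          ∑ I ∈ (TT K P).filter (fun I => I ∘ e = a), ∏ l, if I l ∈ F a then (2 : ℝ) else 1 := by
        rw [← nsmul_eq_mul, ← sum_const]
        refine (sum_le_sum (g := fun I => ∏ l, if I l ∈ F a then (2 : ℝ) else 1)
          fun I hI => ?_).trans (sum_le_sum_of_subset_of_nonneg ?_ fun I _ _ => ?_)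
        · obtain ⟨h5, h6⟩ := mem_filter.1 hI
          have h7 := (hS I h5).2.2
          rw [h6] at h7
          show (4 : ℝ) ^ k ≤ ∏ l, if I l ∈ F a then (2 : ℝ) else 1
          rw [prod_ite, prod_const_one, mul_one, prod_const]
          have e4 : (4 : ℝ) ^ k = 2 ^ (2 * k) := by
            rw [pow_mul]
            norm_num
          rw [e4]
          exact pow_le_pow_right₀ (by norm_num) h7
        · intro I hI
          obtain ⟨h5, h6⟩ := mem_filter.1 hI
          exact mem_filter.2 ⟨(hS I h5).1, h6⟩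
        · exact prod_nonneg fun l _ => by split_ifs <;> norm_num
      have h5 : (∑ x ∈ P, (if x ∈ F a then (2 : ℝ) else 1)) ^ (K - D) ≤
          (P.card : ℝ) ^ (K - D) * 3 ^ k := by
        refine (pow_le_pow_left₀ (sum_nonneg fun x _ => by split_ifs <;> norm_num) h3 _).trans ?_
        rw [mul_pow]
        exact mul_le_mul_of_nonneg_left (pow_three hM k _ (by omega)) (by positivity)
      have h6 : ((S.filter fun I => I ∘ e = a).card : ℝ) * 4 ^ k ≤
          2 ^ D * ((P.card : ℝ) ^ (K - D) * 3 ^ k) :=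
        h4.trans (h2.trans (mul_le_mul_of_nonneg_left h5 (by positivity)))
      have h7 : (0 : ℝ) < 4 ^ k := by positivity
      rw [← le_div_iff₀ h7] at h6
      refine h6.trans (le_of_eq ?_)
      rw [div_pow]
      field_simp
    · have e0 : S.filter (fun I => I ∘ e = a) = ∅ := by
        refine filter_eq_empty_iff.2 fun I hI h6 => hc ?_
        have := (hS I hI).2.1
        rw [h6] at this
        exact this
      rw [e0, card_empty, Nat.cast_zero]
      positivity
  · rw [nsmul_eq_mul, TT_card, Nat.cast_pow]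
    have : (P.card : ℝ) ^ K = (P.card : ℝ) ^ D * (P.card : ℝ) ^ (K - D) := by
      rw [← pow_add]
      congr 1
      omega
    rw [this]
    ring

/-- GOOD TUPLES -/
theorem good {D K M k : ℕ} (hM : 1 ≤ M) (hK : K = M * k) (hD : D ≤ K) (hk : 2 ≤ K)
    (hkD : (K : ℝ) ^ D * (2 ^ D * (3 / 4) ^ k) ≤ 1 / 8)
    (F : (Fin D → ℕ) → Finset ℕ) (P : Finset ℕ) (hP : 4 * K ^ 2 ≤ P.card)
    (E : Finset (Fin D → ℕ)) (hE : (K : ℝ) ^ D * E.card ≤ 1 / 4 * (P.card : ℝ) ^ D) :
    ∃ I : Fin K → ℕ, Function.Injective I ∧ (∀ l, I l ∈ P) ∧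
      ∀ e : Fin D → Fin K, Function.Injective e → I ∘ e ∉ E ∧
        (2 * k ≤ (univ.filter fun l => I l ∈ F (I ∘ e)).card →
          P.card ≤ M * (P.filter fun x => x ∈ F (I ∘ e)).card) := by
  have hm0 : (0 : ℝ) < P.card := by
    have : 0 < P.card := by
      have : 0 < K ^ 2 := by positivity
      omega
    exact_mod_cast this
  have hmK : 4 * (K : ℝ) ^ 2 ≤ P.card := by exact_mod_cast hP
  by_contra hcon
  push Not at hcon
  -- the three sets
  obtain ⟨B1, hB1⟩ : ∃ B : Finset (Fin K → ℕ), ∀ I, I ∈ B ↔ I ∈ TT K P ∧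
    ∃ e : Fin 2 → Fin K, Function.Injective e ∧
      I ∘ e ∈ P.image (fun x => fun _ : Fin 2 => x) := ⟨(TT K P).filter _, fun I => mem_filter⟩
  obtain ⟨B2, hB2⟩ : ∃ B : Finset (Fin K → ℕ), ∀ I, I ∈ B ↔ I ∈ TT K P ∧
    ∃ e : Fin D → Fin K, Function.Injective e ∧ Bad M k P F (I ∘ e) I :=
    ⟨(TT K P).filter _, fun I => mem_filter⟩
  obtain ⟨B3, hB3⟩ : ∃ B : Finset (Fin K → ℕ), ∀ I, I ∈ B ↔ I ∈ TT K P ∧
    ∃ e : Fin D → Fin K, Function.Injective e ∧ I ∘ e ∈ E :=
    ⟨(TT K P).filter _, fun I => mem_filter⟩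
  have c1 : (B1.card : ℝ) ≤ 1 / 4 * (P.card : ℝ) ^ K := by
    refine (un P (fun (e : Fin 2 → Fin K) I => I ∘ e ∈ P.image (fun x => fun _ : Fin 2 => x))
      ((P.card : ℝ) * (P.card : ℝ) ^ (K - 2)) (fun e he S hS => ?_) (by positivity) B1
      fun I hI => (hB1 I).1 hI).trans ?_
    · refine (cnt3 P e he _ S hS).trans ?_
      refine mul_le_mul_of_nonneg_right ?_ (by positivity)
      exact_mod_cast card_image_le
    · have e1 : (P.card : ℝ) ^ K = P.card * (P.card * (P.card : ℝ) ^ (K - 2)) := by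
        rw [← pow_succ', ← pow_succ']
        congr 1
        omega
      rw [e1]
      have h2 : 0 ≤ (P.card : ℝ) * (P.card : ℝ) ^ (K - 2) := by positivity
      have h3 := mul_le_mul_of_nonneg_right hmK h2
      linarith
  have c2 : (B2.card : ℝ) ≤ 1 / 8 * (P.card : ℝ) ^ K := by
    refine (un P (fun (e : Fin D → Fin K) I => Bad M k P F (I ∘ e) I)
      ((P.card : ℝ) ^ K * (2 ^ D * (3 / 4) ^ k)) (fun e he S hS => cnt2 hM hK hD P F e he S hS)
      (by positivity) B2 fun I hI => (hB2 I).1 hI).trans ?_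
    have h2 : 0 ≤ (P.card : ℝ) ^ K := by positivity
    have h3 := mul_le_mul_of_nonneg_left hkD h2
    calc (K : ℝ) ^ D * ((P.card : ℝ) ^ K * (2 ^ D * (3 / 4) ^ k)) =
        (P.card : ℝ) ^ K * ((K : ℝ) ^ D * (2 ^ D * (3 / 4) ^ k)) := by ring
      _ ≤ (P.card : ℝ) ^ K * (1 / 8) := h3
      _ = 1 / 8 * (P.card : ℝ) ^ K := by ring
  have c3 : (B3.card : ℝ) ≤ 1 / 4 * (P.card : ℝ) ^ K := by
    refine (un P (fun (e : Fin D → Fin K) I => I ∘ e ∈ E) (E.card * (P.card : ℝ) ^ (K - D))
      (fun e he S hS => cnt3 P e he E S hS) (by positivity) B3 fun I hI => (hB3 I).1 hI).trans ?_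
    have e1 : (P.card : ℝ) ^ K = (P.card : ℝ) ^ D * (P.card : ℝ) ^ (K - D) := by
      rw [← pow_add]
      congr 1
      omega
    rw [e1]
    have h2 : 0 ≤ (P.card : ℝ) ^ (K - D) := by positivity
    have h3 := mul_le_mul_of_nonneg_right hE h2
    linarith
  have hsub : TT K P ⊆ B1 ∪ (B2 ∪ B3) := by
    intro I hI
    rw [mem_union, mem_union]
    by_contra hn
    push Not at hn
    obtain ⟨n1, n2, n3⟩ := hn
    have hIn := mem_TT.1 hI
    have hinj : Function.Injective I := by
      intro i j hij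
      by_contra hne
      apply n1
      refine (hB1 I).2 ⟨hI, ![i, j], ?_, mem_image.2 ⟨I i, hIn i, ?_⟩⟩
      · intro x y hxy
        fin_cases x <;> fin_cases y
        · rfl
        · exact absurd hxy hne
        · exact absurd hxy.symm hne
        · rfl
      · funext x
        fin_cases x
        · rfl
        · exact hij
    obtain ⟨e, he, h5⟩ := hcon I hinj hIn
    by_cases h6 : I ∘ e ∈ E
    · exact n3 ((hB3 I).2 ⟨hI, e, he, h6⟩)
    · obtain ⟨h7, h8⟩ := h5 h6
      exact n2 ((hB2 I).2 ⟨hI, e, he, h8, h7⟩)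
  have h9 := card_le_card hsub
  have h10 : (TT K P).card ≤ B1.card + (B2.card + B3.card) :=
    h9.trans ((card_union_le _ _).trans (Nat.add_le_add_left (card_union_le _ _) _))
  rw [TT_card] at h10
  have h11 : (P.card : ℝ) ^ K ≤ B1.card + (B2.card + B3.card) := by exact_mod_cast h10
  have h12 : 0 < (P.card : ℝ) ^ K := by positivity
  linarith

/-- GREEDY: a partition into good blocks up to a small rest -/
theorem greedy (G : Finset ℕ → Prop) (K n1 : ℕ) (hK : 1 ≤ K) (P : Finset ℕ)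
    (h : ∀ P' ⊆ P, n1 ≤ P'.card → ∃ B ⊆ P', B.card = K ∧ G B) :
    ∀ (n : ℕ) (P' : Finset ℕ), P'.card = n → P' ⊆ P →
    ∃ (S : Finset (Finset ℕ)) (R : Finset ℕ), (∀ B ∈ S, B ⊆ P' ∧ B.card = K ∧ G B) ∧
      ((S : Set (Finset ℕ)).PairwiseDisjoint id) ∧ R ⊆ P' ∧ Disjoint (S.biUnion id) R ∧
      S.biUnion id ∪ R = P' ∧ (R = ∅ ∨ R.card < n1) := by
  intro n
  induction n using Nat.strong_induction_on with
  | _ n ih =>
    intro P' hn hP'
    by_cases hc : n1 ≤ P'.card
    · obtain ⟨B, hB, hBK, hG⟩ := h P' hP' hc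
      have hlt : (P' \ B).card < n := by
        rw [card_sdiff_of_subset hB]
        have := card_le_card hB
        omega
      obtain ⟨S, R, h1, h2, h3, h4, h5, h6⟩ := ih _ hlt (P' \ B) rfl
        (sdiff_subset.trans hP')
      have hBd : ∀ B' ∈ S, Disjoint B B' := fun B' hB' =>
        disjoint_sdiff.mono_right (h1 B' hB').1
      refine ⟨insert B S, R, ?_, ?_, h3.trans sdiff_subset, ?_, ?_, h6⟩
      · intro B' hB'
        rcases mem_insert.1 hB' with rfl | hB'
        · exact ⟨hB, hBK, hG⟩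
        · exact ⟨(h1 B' hB').1.trans sdiff_subset, (h1 B' hB').2⟩
      · rw [coe_insert]
        refine (Set.pairwiseDisjoint_insert.2 ⟨h2, fun B' hB' _ => hBd B' hB'⟩)
      · rw [biUnion_insert, disjoint_union_left]
        exact ⟨disjoint_sdiff.mono_right h3, h4⟩
      · rw [biUnion_insert, union_assoc, h5]
        exact union_sdiff_of_subset hB
    · exact ⟨∅, P', by simp, by simp, subset_rfl, by simp, by simp, Or.inr (by omega)⟩

end Pool.Agent.Helper40.KZ.CNT
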